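import Pool.Agent.Helper35_WH.Defs

/-!
# Chord systems on the boundary of a surface, and square tiled surfaces

* `Rim`: the boundary of a compact surface.  An element of `E` is a corner of the boundary side
  starting at it: `φ` leads to the other end of the boundary side, `σ` to the other element at the
  same boundary vertex.  The boundary circles are the orbits of `σ, φ`.
* `Chords R`: a system of disjoint bands which are attached along boundary sides and cut the
  surface into discs: `A` leads along the long side of a band; `A e = φ e` if no band is attached at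
  the boundary side of `e`.  The discs are the orbits of `σ, A`.
* `Sol A b a`: the flat labelling of the surface by elements of a group `M`: `b` are the values on
  the boundary sides and `a` the values on the long sides of the bands.
* `Quad`: square tiled surfaces, given by the set `K` of the corners of the squares.
-/

namespace Pool.Agent.Helper35_WH

/-- the boundary of a surface -/
structure Rim where
  /-- the ends of boundary sides -/
  E : Type
  [fE : Fintype E]
  [dE : DecidableEq E]
  /-- the other element at the same boundary vertex -/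
  σ : E → E
  /-- the other end of the boundary side -/
  φ : E → E
  σσ : ∀ e, σ (σ e) = e
  φφ : ∀ e, φ (φ e) = e
  σ_ne : ∀ e, σ e ≠ e
  φ_ne : ∀ e, φ e ≠ e

attribute [instance] Rim.fE Rim.dE

/-- a system of bands cutting the surface into discs -/
structure Chords (R : Rim) where
  /-- along the long side of the band; `A e = φ e` if there is no band at the side of `e` -/
  A : R.E → R.E
  AA : ∀ e, A (A e) = e
  A_ne : ∀ e, A e ≠ e
  comm : ∀ e, A (R.φ e) = R.φ (A e)

/-- boundary labellings -/
def Rim.Bd (R : Rim) {M : Type} [Group M] (b : R.E → M) : Prop := ∀ e, b (R.φ e) = (b e)⁻¹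

/-- flat labellings of the surface cut into discs by the bands `A`, with boundary values `b` -/
def Sol {R : Rim} (A : Chords R) {M : Type} [Group M] (b a : R.E → M) : Prop :=
  (∀ e, a (A.A e) = (a e)⁻¹) ∧
  (∀ e, A.A e = R.φ e → a e = b e) ∧
  (∀ e, A.A e ≠ R.φ e → a e = b e * a (R.φ e) * (b (A.A e))⁻¹) ∧
  ∃ r : R.E → M, (∀ e, r (R.σ e) = r e) ∧ ∀ e, r (A.A e) = r e * a e

/-- `f` is invariant under the involutions `σ`, `φ` -/
def Rim.Inv (R : Rim) {α : Type} (f : R.E → α) : Prop :=
  (∀ e, f (R.σ e) = f e) ∧ ∀ e, f (R.φ e) = f e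

/-! ### Square tiled surfaces -/

/-- A square tiled surface, given by the finite set `K` of the corners of its squares.
`fa`: the corner of the same square at the other end of the horizontal side,
`fc`: the corner of the same square at the other end of the vertical side,
`nu`: the corner of the neighbouring square across the horizontal side (same vertex),
`eta`: the corner of the neighbouring square across the vertical side (same vertex).
`nu κ = κ` means that the horizontal side is on the boundary of the surface.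
`colA`: left or right, `colC`: bottom or top. -/
structure Quad where
  /-- corners of squares -/
  K : Type
  [fK : Fintype K]
  [dK : DecidableEq K]
  /-- across the horizontal side -/
  nu : K → K
  /-- across the vertical side -/
  eta : K → K
  /-- along the horizontal side -/
  fa : K → K
  /-- along the vertical side -/
  fc : K → K
  nunu : ∀ κ, nu (nu κ) = κ
  etaeta : ∀ κ, eta (eta κ) = κ
  fafa : ∀ κ, fa (fa κ) = κ
  fcfc : ∀ κ, fc (fc κ) = κ
  fafc : ∀ κ, fa (fc κ) = fc (fa κ)
  nufa : ∀ κ, nu (fa κ) = fa (nu κ)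
  etafc : ∀ κ, eta (fc κ) = fc (eta κ)
  /-- left or right -/
  colA : K → Bool
  /-- bottom or top -/
  colC : K → Bool
  colA_nu : ∀ κ, colA (nu κ) = colA κ
  colA_fc : ∀ κ, colA (fc κ) = colA κ
  colA_fa : ∀ κ, colA (fa κ) = !colA κ
  colC_eta : ∀ κ, colC (eta κ) = colC κ
  colC_fa : ∀ κ, colC (fa κ) = colC κ
  colC_fc : ∀ κ, colC (fc κ) = !colC κ

attribute [instance] Quad.fK Quad.dK

/-- transposition -/
def Quad.T (Q : Quad) : Quad where
  K := Q.K
  nu := Q.eta
  eta := Q.nu
  fa := Q.fc
  fc := Q.fa
  nunu := Q.etaeta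
  etaeta := Q.nunu
  fafa := Q.fcfc
  fcfc := Q.fafa
  fafc κ := (Q.fafc κ).symm
  nufa := Q.etafc
  etafc := Q.nufa
  colA := Q.colC
  colC := Q.colA
  colA_nu := Q.colC_eta
  colA_fc := Q.colC_fa
  colA_fa := Q.colC_fc
  colC_eta := Q.colA_nu
  colC_fa := Q.colA_fc
  colC_fc := Q.colA_fa

/-- `k'` is reached from `k` by the maps `f` and `g` -/
def Orb {K : Type} (f g : K → K) (k k' : K) : Prop :=
  ∀ P : K → Prop, (∀ x, P x → P (f x)) → (∀ x, P x → P (g x)) → P k → P k'

/-- vertical strips are not closed: each orbit of `nu, fc` meets the boundary -/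
def Quad.Strips (Q : Quad) : Prop := ∀ κ, ∃ κ', Orb Q.nu Q.fc κ κ' ∧ Q.nu κ' = κ'

/-- the vertical graph is a forest: for each vertical side there is a colouring of the vertices of
the surface such that this side (and its copy in the neighbouring square) is the only vertical side
with differently coloured ends -/
def Quad.Forest (Q : Quad) : Prop :=
  ∀ κ₀, ∃ c : Q.K → Bool, (∀ κ, c (Q.nu κ) = c κ) ∧ (∀ κ, c (Q.eta κ) = c κ) ∧
    ∀ κ, c (Q.fc κ) ≠ c κ ↔ (κ = κ₀ ∨ κ = Q.fc κ₀ ∨ κ = Q.eta κ₀ ∨ κ = Q.fc (Q.eta κ₀))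

/-- the ends of the boundary sides: `(κ, false)` with `nu κ = κ` (horizontal side) or
`(κ, true)` with `eta κ = κ` (vertical side) -/
def Quad.Bdry (Q : Quad) (x : Q.K × Bool) : Prop :=
  (if x.2 then Q.eta x.1 else Q.nu x.1) = x.1

instance (Q : Quad) : DecidablePred Q.Bdry := fun x => by unfold Quad.Bdry; infer_instance

/-- flat labellings of a square tiled surface: `vV κ` is the value along the vertical side from the
corner `κ`, `vH κ` along the horizontal side -/
structure Quad.Rep (Q : Quad) {M : Type} [Group M] (vV vH : Q.K → M) : Prop where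
  fcV : ∀ κ, vV (Q.fc κ) = (vV κ)⁻¹
  etaV : ∀ κ, vV (Q.eta κ) = vV κ
  faH : ∀ κ, vH (Q.fa κ) = (vH κ)⁻¹
  nuH : ∀ κ, vH (Q.nu κ) = vH κ
  flat : ∀ κ, vH κ * vV (Q.fa κ) = vV κ * vH (Q.fc κ)

/-- `p` is a potential for the vertical part -/
structure Quad.Pot (Q : Quad) {M : Type} [Group M] (vV p : Q.K → M) : Prop where
  nu : ∀ κ, p (Q.nu κ) = p κ
  eta : ∀ κ, p (Q.eta κ) = p κ
  fc : ∀ κ, vV κ = (p κ)⁻¹ * p (Q.fc κ)

/-- The rim and the two chord systems of a square tiled surface. -/
structure Quad.RimData (Q : Quad) where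
  /-- the rim -/
  R : Rim
  /-- its elements as ends of boundary sides -/
  e : R.E ≃ {x : Q.K × Bool // Q.Bdry x}
  /-- the chords given by the vertical strips -/
  AV : Chords R
  /-- the chords given by the horizontal strips -/
  AH : Chords R
  φ_false : ∀ x, (e x).1.2 = false → (e (R.φ x)).1 = (Q.fa (e x).1.1, false)
  φ_true : ∀ x, (e x).1.2 = true → (e (R.φ x)).1 = (Q.fc (e x).1.1, true)
  σ_orb : ∀ x, Orb Q.nu Q.eta (e x).1.1 (e (R.σ x)).1.1
  σ_uni : ∀ x y, Orb Q.nu Q.eta (e x).1.1 (e y).1.1 → y = x ∨ y = R.σ x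
  AV_false : ∀ x, (e x).1.2 = false →
    (e (AV.A x)).1.2 = false ∧ Orb Q.nu Q.fc (e x).1.1 (e (AV.A x)).1.1
  AV_uni : ∀ x y, (e x).1.2 = false → (e y).1.2 = false → Orb Q.nu Q.fc (e x).1.1 (e y).1.1 →
    y = x ∨ y = AV.A x
  AV_true : ∀ x, (e x).1.2 = true → AV.A x = R.φ x
  AH_true : ∀ x, (e x).1.2 = true →
    (e (AH.A x)).1.2 = true ∧ Orb Q.eta Q.fa (e x).1.1 (e (AH.A x)).1.1
  AH_uni : ∀ x y, (e x).1.2 = true → (e y).1.2 = true → Orb Q.eta Q.fa (e x).1.1 (e y).1.1 →
    y = x ∨ y = AH.A x
  AH_false : ∀ x, (e x).1.2 = false → AH.A x = R.φ x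

/-- the boundary values of a labelling -/
def Quad.RimData.bv {Q : Quad} (D : Q.RimData) {M : Type} [Group M] (vV vH : Q.K → M)
    (x : D.R.E) : M := if (D.e x).1.2 then vV (D.e x).1.1 else vH (D.e x).1.1

end Pool.Agent.Helper35_WH
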