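import Pool.Agent.Helper35_WH.Defs

/-!
# Square complexes over two bases, surfaces, chord systems: definitions
-/

namespace Pool.Agent.Helper35_WH

open FreeGroup

/-! ### Square complexes -/

/-- Finite square complexes with horizontal edges `A` (labels in `I`), vertical edges `B` (labels
in `J`) and squares `S`.  The square `q` has the bottom and top edges `bot q`, `top q : A` (from
left to right) and the left and right edges `lef q`, `rig q : B` (from bottom to top). -/
structure Cx (I J : Type) where
  /-- vertices -/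
  V : Type
  /-- horizontal edges -/
  A : Type
  /-- vertical edges -/
  B : Type
  /-- squares -/
  S : Type
  [fV : Fintype V]
  [fA : Fintype A]
  [fB : Fintype B]
  [fS : Fintype S]
  [dV : DecidableEq V]
  [dA : DecidableEq A]
  [dB : DecidableEq B]
  [dS : DecidableEq S]
  /-- start of a horizontal edge -/
  s₁ : A → V
  /-- end of a horizontal edge -/
  t₁ : A → V
  /-- label of a horizontal edge -/
  l₁ : A → I
  /-- start of a vertical edge -/
  s₂ : B → V
  /-- end of a vertical edge -/
  t₂ : B → V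
  /-- label of a vertical edge -/
  l₂ : B → J
  /-- bottom edge -/
  bot : S → A
  /-- top edge -/
  top : S → A
  /-- left edge -/
  lef : S → B
  /-- right edge -/
  rig : S → B
  h1 : ∀ q, s₁ (bot q) = s₂ (lef q)
  h2 : ∀ q, t₁ (bot q) = s₂ (rig q)
  h3 : ∀ q, s₁ (top q) = t₂ (lef q)
  h4 : ∀ q, t₁ (top q) = t₂ (rig q)
  h5 : ∀ q, l₁ (bot q) = l₁ (top q)
  h6 : ∀ q, l₂ (lef q) = l₂ (rig q)

attribute [instance] Cx.fV Cx.fA Cx.fB Cx.fS Cx.dV Cx.dA Cx.dB Cx.dS

/-- the transposed complex: horizontal and vertical are exchanged -/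
def Cx.T {I J : Type} (C : Cx I J) : Cx J I where
  V := C.V
  A := C.B
  B := C.A
  S := C.S
  s₁ := C.s₂
  t₁ := C.t₂
  l₁ := C.l₂
  s₂ := C.s₁
  t₂ := C.t₁
  l₂ := C.l₁
  bot := C.lef
  top := C.rig
  lef := C.bot
  rig := C.top
  h1 q := (C.h1 q).symm
  h2 q := (C.h3 q).symm
  h3 q := (C.h2 q).symm
  h4 q := (C.h4 q).symm
  h5 := C.h6
  h6 := C.h5

/-- flat labellings of the edges by elements of a group `M` -/
def Cx.Flat {I J : Type} (C : Cx I J) {M : Type} [Group M] (μ₁ : C.A → M) (μ₂ : C.B → M) : Prop :=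
  ∀ q, μ₁ (C.bot q) * μ₂ (C.rig q) = μ₂ (C.lef q) * μ₁ (C.top q)

/-- `(ρ₁, ρ₂)` is a universal flat labelling: every flat labelling is obtained from it by a unique
homomorphism and a unique change of gauge which is trivial at `o`.  (In other words, the labelling
`ρ` defines an isomorphism of the fundamental group with the group `F`.) -/
def Cx.Univ {I J : Type} (C : Cx I J) {F : Type} [Group F] (ρ₁ : C.A → F) (ρ₂ : C.B → F)
    (o : C.V) : Prop :=
  ∀ (M : Type) [Group M] (μ₁ : C.A → M) (μ₂ : C.B → M), C.Flat μ₁ μ₂ →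
    ∃! x : (F →* M) × (C.V → M), x.2 o = 1 ∧
      (∀ e, μ₁ e = (x.2 (C.s₁ e))⁻¹ * x.1 (ρ₁ e) * x.2 (C.t₁ e)) ∧
      (∀ e, μ₂ e = (x.2 (C.s₂ e))⁻¹ * x.1 (ρ₂ e) * x.2 (C.t₂ e))

/-! ### Models

A model is a finite subcomplex of the two-sided Cayley square complex of a free group `F` with
respect to two bases: the vertices are elements `w` of `F`, horizontal edges lead from `w` to
`x⁻¹ w`, vertical edges from `w` to `w y`.  It contains a closed path which reads first the word
`X` along horizontal edges and then the word `Y` along vertical edges, and its fundamental group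
is `F`. -/

/-- see above -/
structure Model (n : ℕ) (X Y : List (Lt n)) where
  /-- the group -/
  F : Type
  [gF : Group F]
  /-- the first basis -/
  eX : FG n ≃* F
  /-- the second basis -/
  eY : FG n ≃* F
  /-- the complex -/
  C : Cx (Fin n) (Fin n)
  /-- the positions of the vertices in the group -/
  pos : C.V → F
  pos_inj : Function.Injective pos
  pos₁ : ∀ e, pos (C.t₁ e) = (eX (of (C.l₁ e)))⁻¹ * pos (C.s₁ e)
  pos₂ : ∀ e, pos (C.t₂ e) = pos (C.s₂ e) * eY (of (C.l₂ e))
  inj₁ : ∀ e e', C.l₁ e = C.l₁ e' → C.s₁ e = C.s₁ e' → e = e'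
  inj₂ : ∀ e e', C.l₂ e = C.l₂ e' → C.s₂ e = C.s₂ e' → e = e'
  injS : ∀ q q', C.bot q = C.bot q' → C.lef q = C.lef q' → q = q'
  /-- start of the closed path -/
  w0 : C.V
  /-- end of the horizontal part -/
  w1 : C.V
  /-- the horizontal part -/
  hp : List (C.A × Bool)
  /-- the vertical part -/
  vp : List (C.B × Bool)
  hp_path : IsPath C.s₁ C.t₁ w0 hp w1
  vp_path : IsPath C.s₂ C.t₂ w1 vp w0
  hp_read : readW C.l₁ hp = X
  vp_read : readW C.l₂ vp = Y
  univ : C.Univ (fun e => eX (of (C.l₁ e))) (fun _ => 1) w0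

attribute [instance] Model.gF

/-- the number of cells -/
def Model.size {n : ℕ} {X Y : List (Lt n)} (m : Model n X Y) : ℕ :=
  Fintype.card m.C.V + Fintype.card m.C.A + Fintype.card m.C.B + Fintype.card m.C.S

/-- the horizontal edge of a side `(q, c)` of a square: bottom for `c = false`, top for `true` -/
def Cx.hside {I J : Type} (C : Cx I J) (x : C.S × Bool) : C.A := if x.2 then C.top x.1 else C.bot x.1

/-- the vertical edge of a side `(q, a)` of a square: left for `a = false`, right for `true` -/
def Cx.vside {I J : Type} (C : Cx I J) (x : C.S × Bool) : C.B := if x.2 then C.rig x.1 else C.lef x.1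

/-- The properties of a minimal model of two tight words. -/
structure Tame {n : ℕ} {X Y : List (Lt n)} (m : Model n X Y) : Prop where
  /-- no free faces: a horizontal edge outside of the path is in at least two squares -/
  f₁ : ∀ e : m.C.A, (∀ b, (e, b) ∉ m.hp) → 2 ≤ Fintype.card {x : m.C.S × Bool // m.C.hside x = e}
  /-- no free faces: a vertical edge outside of the path is in at least two squares -/
  f₂ : ∀ e : m.C.B, (∀ b, (e, b) ∉ m.vp) → 2 ≤ Fintype.card {x : m.C.S × Bool // m.C.vside x = e}
  /-- the horizontal graph is connected -/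
  con₁ : ∀ f : m.C.V → Bool, (∀ e, f (m.C.s₁ e) = f (m.C.t₁ e)) → ∀ u u', f u = f u'
  /-- the vertical graph is connected -/
  con₂ : ∀ f : m.C.V → Bool, (∀ e, f (m.C.s₂ e) = f (m.C.t₂ e)) → ∀ u u', f u = f u'
  /-- horizontal edges with the same label are connected by squares -/
  tr₁ : ∀ f : m.C.A → Bool, (∀ q, f (m.C.bot q) = f (m.C.top q)) →
    ∀ e e', m.C.l₁ e = m.C.l₁ e' → f e = f e'
  /-- vertical edges with the same label are connected by squares -/
  tr₂ : ∀ f : m.C.B → Bool, (∀ q, f (m.C.lef q) = f (m.C.rig q)) →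
    ∀ e e', m.C.l₂ e = m.C.l₂ e' → f e = f e'

/-! ### Directed edges, germs, corners -/

/-- directed edges of both kinds; a directed edge is also a germ at its origin -/
abbrev Cx.Dir {I J : Type} (C : Cx I J) : Type := (C.A ⊕ C.B) × Bool

/-- the vertex where a directed edge starts -/
def Cx.org {I J : Type} (C : Cx I J) : C.Dir → C.V
  | (.inl e, b) => if b then C.s₁ e else C.t₁ e
  | (.inr e, b) => if b then C.s₂ e else C.t₂ e

/-- corners of squares: `(q, a, c)`, `a`: left (`false`) or right, `c`: bottom (`false`) or top -/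
abbrev Cx.Cor {I J : Type} (C : Cx I J) : Type := C.S × Bool × Bool

/-- the horizontal germ at a corner -/
def Cx.hgerm {I J : Type} (C : Cx I J) (κ : C.Cor) : C.Dir := (.inl (C.hside (κ.1, κ.2.2)), !κ.2.1)

/-- the vertical germ at a corner -/
def Cx.vgerm {I J : Type} (C : Cx I J) (κ : C.Cor) : C.Dir := (.inr (C.vside (κ.1, κ.2.1)), !κ.2.2)

/-- the vertex of a corner -/
def Cx.vert {I J : Type} (C : Cx I J) (κ : C.Cor) : C.V := C.org (C.hgerm κ)

/-- the closed path as a list of directed edges -/
def Model.path {n : ℕ} {X Y : List (Lt n)} (m : Model n X Y) : List m.C.Dir :=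
  m.hp.map (fun x => (Sum.inl x.1, x.2)) ++ m.vp.map (fun x => (Sum.inr x.1, x.2))

/-- the turns of the closed path: pairs of germs at the same vertex -/
def Model.Turn {n : ℕ} {X Y : List (Lt n)} (m : Model n X Y) (g g' : m.C.Dir) : Prop :=
  [inv g, g'] <:+: m.path ++ m.path

end Pool.Agent.Helper35_WH
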