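import Mathlib
import Pool.Agent.Helper32_HCK.Defs

/-!
# Whitehead's automorphism problem: definitions

Statement level definitions for MP_8184a0_lc and the common definitions of the proof.

* `whiteheadProblem n` : given `u, v` in the free group of rank `n`, is `u` an automorphic image
  of `v`?  Instances are written as pairs of reduced words.
* `Small n K τ` : the automorphism `τ` and its inverse send the free generators to words of length
  at most `K`.
* `Conn n K L N u v` : `v` is obtained from `u` by `N` small automorphisms through elements of
  length at most `L`.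
-/

namespace Pool.Agent.Helper35_WH

open FreeGroup Pool.Agent.Helper32_HCK

/-- the free group of rank `n` -/
abbrev FG (n : ℕ) := FreeGroup (Fin n)

/-- the letters: free generators and their inverses -/
abbrev Lt (n : ℕ) := Fin n × Bool

/-- the encoding of a pair of elements by two reduced words separated by a marker -/
def encodePair (n : ℕ) (x : FG n × FG n) : List (Option (Lt n)) :=
  x.1.toWord.map some ++ none :: x.2.toWord.map some

theorem encodePair_injective (n : ℕ) : Function.Injective (encodePair n) := by
  rintro ⟨a, b⟩ ⟨a', b'⟩ h
  have key : ∀ (l l' m m' : List (Lt n)), l.map some ++ none :: m.map some =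
      l'.map some ++ none :: m'.map some → l = l' ∧ m = m' := by
    intro l
    induction l with
    | nil =>
      intro l' m m' h
      cases l' with
      | nil =>
        simp only [List.map_nil, List.nil_append, List.cons.injEq, true_and] at h
        exact ⟨rfl, List.map_injective_iff.2 (Option.some_injective _) h⟩
      | cons x l' => simp at h
    | cons x l ih =>
      intro l' m m' h
      cases l' with
      | nil => simp at h
      | cons x' l' =>
        simp only [List.map_cons, List.cons_append, List.cons.injEq, Option.some.injEq] at h
        obtain ⟨h1, h2⟩ := ih l' m m' h.2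
        exact ⟨by rw [h.1, h1], h2⟩
  obtain ⟨h1, h2⟩ := key _ _ _ _ h
  exact Prod.ext (FreeGroup.toWord_injective h1) (FreeGroup.toWord_injective h2)

/-- Whitehead's problem: is `x.1` an automorphic image of `x.2`? -/
def whiteheadProblem (n : ℕ) : DecisionProblem where
  Inst := FG n × FG n
  Alph := Option (Lt n)
  alphFintype := inferInstance
  enc := encodePair n
  enc_injective := encodePair_injective n
  Yes x := ∃ φ : FG n ≃* FG n, φ x.2 = x.1

/-- small automorphisms -/
def Small (n K : ℕ) (τ : FG n ≃* FG n) : Prop :=
  ∀ i, (τ (of i)).norm ≤ K ∧ (τ.symm (of i)).norm ≤ K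

/-- `N` small automorphisms lead from `u` to `v` through elements of length at most `L` -/
def Conn (n K L N : ℕ) (u v : FG n) : Prop :=
  ∃ w : ℕ → FG n, w 0 = u ∧ w N = v ∧ (∀ i ≤ N, (w i).norm ≤ L) ∧
    ∀ i < N, ∃ τ : FG n ≃* FG n, Small n K τ ∧ w (i + 1) = τ (w i)

/-! ### Words, splittings, tight words, filling elements -/

/-- the inverse letter; also: the other end of a germ -/
def inv {α : Type} (g : α × Bool) : α × Bool := (g.1, !g.2)

@[simp] theorem inv_inv {α : Type} (g : α × Bool) : inv (inv g) = g := by simp [inv]

theorem inv_ne {α : Type} (g : α × Bool) : inv g ≠ g := by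
  intro h
  have := congrArg Prod.snd h
  simp [inv] at this

/-- The two vertex graph given by a splitting `(z, s)`: vertices `false, true`; for each germ
`g ≠ z` the germ `g` starts at the vertex `s g`; the germ `z` starts at both vertices (there are
two edges for the letter `z`).  `trav` is `1` if the step `g` from `a` to `a'` uses the edge
which joins the two vertices and belongs to `z`. -/
def trav {α : Type} [DecidableEq α] (z : α × Bool) (s : α × Bool → Bool) (a : Bool) (g : α × Bool)
    (a' : Bool) : ℕ :=
  if (g = z ∧ a ≠ s (inv z)) ∨ (g = inv z ∧ a' ≠ s (inv z)) then 1 else 0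

/-- `SW z s a L b k`: the word `L` can be read in the two vertex graph along a path from `a` to
`b` which crosses the special edge `k` times. -/
inductive SW {α : Type} [DecidableEq α] (z : α × Bool) (s : α × Bool → Bool) :
    Bool → List (α × Bool) → Bool → ℕ → Prop
  | nil (a : Bool) : SW z s a [] a 0
  | cons (g : α × Bool) (L : List (α × Bool)) (a a' b : Bool) (k : ℕ)
      (h1 : g ≠ z → a = s g) (h2 : inv g ≠ z → a' = s (inv g)) (h3 : SW z s a' L b k) :
      SW z s a (g :: L) b (k + trav z s a g a')

/-- the splitting is not trivial -/
def NontrivSplit {α : Type} (z : α × Bool) (s : α × Bool → Bool) : Prop :=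
  ∃ g g', g ≠ z ∧ g' ≠ z ∧ s g ≠ s g'

/-- the cyclic word `L` cannot be read in any nontrivial two vertex graph -/
def Tight {α : Type} [DecidableEq α] (L : List (α × Bool)) : Prop :=
  ¬ ∃ z s a k, NontrivSplit z s ∧ SW z s a L a k

/-- all letters occur -/
def AllLetters {α : Type} (L : List (α × Bool)) : Prop := ∀ i : α, ∃ b, (i, b) ∈ L

/-- `v` is not in a proper free factor -/
def Filling {H : Type} [Group H] (v : H) : Prop :=
  ∀ (J : Type) [Fintype J] (e : H ≃* FreeGroup J) (t : J),
    e v ∉ Subgroup.closure (FreeGroup.of '' {t}ᶜ)

/-- paths in a graph with edges `e : E` from `s e` to `t e`; `(e, true)` is the edge in its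
direction, `(e, false)` against it -/
def IsPath {V E : Type} (s t : E → V) : V → List (E × Bool) → V → Prop
  | u, [], w => u = w
  | u, (e, b) :: L, w => u = (if b then s e else t e) ∧ IsPath s t (if b then t e else s e) L w

/-- the word read along a path -/
def readW {E α : Type} (l : E → α) (L : List (E × Bool)) : List (α × Bool) :=
  L.map fun x => (l x.1, x.2)

/-! ### Labelled graphs -/

/-- finite graphs with edges labelled by `α` -/
structure LGraph (α : Type) where
  /-- vertices -/
  V : Type
  /-- edges -/
  E : Type
  [fV : Fintype V]
  [fE : Fintype E]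
  [dV : DecidableEq V]
  [dE : DecidableEq E]
  /-- source -/
  src : E → V
  /-- target -/
  tgt : E → V
  /-- label -/
  lab : E → α

attribute [instance] LGraph.fV LGraph.fE LGraph.dV LGraph.dE

/-- the vertex at which a directed edge starts -/
def LGraph.org {α : Type} (G : LGraph α) (d : G.E × Bool) : G.V :=
  if d.2 then G.src d.1 else G.tgt d.1

/-- connected, seen from `o` -/
def LGraph.Con {α : Type} (G : LGraph α) (o : G.V) : Prop :=
  ∀ u, ∃ L, IsPath G.src G.tgt o L u

/-- every element of the free group is the label of a closed path at `o` -/
def LGraph.Surj {α : Type} (G : LGraph α) (o : G.V) : Prop :=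
  ∀ g : FreeGroup α, ∃ L, IsPath G.src G.tgt o L o ∧ FreeGroup.mk (readW G.lab L) = g

end Pool.Agent.Helper35_WH
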