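import Pool.Agent.Helper35_WH.Cplx

/-!
# The transposed model, special edges, the square tiled surface of a model
-/

namespace Pool.Agent.Helper35_WH

open FreeGroup

/-- change of the base point -/
theorem Cx.Univ.base {I J : Type} {C : Cx I J} {F : Type} [Group F] {ρ₁ : C.A → F} {ρ₂ : C.B → F}
    {o : C.V} (h : C.Univ ρ₁ ρ₂ o) (o' : C.V) : C.Univ ρ₁ ρ₂ o' := by
  intro M _ μ₁ μ₂ hμ
  obtain ⟨⟨f, p⟩, ⟨hp0, hp1, hp2⟩, huniq⟩ := h M μ₁ μ₂ hμ
  dsimp only at hp0 hp1 hp2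
  refine ⟨⟨(MulAut.conj (p o')⁻¹).toMonoidHom.comp f, fun v => (p o')⁻¹ * p v⟩, ⟨by simp, ?_, ?_⟩, ?_⟩
  · intro e; rw [hp1 e]; simp [mul_assoc]
  · intro e; rw [hp2 e]; simp [mul_assoc]
  · rintro ⟨g, r⟩ ⟨hr0, hr1, hr2⟩
    dsimp only at hr0 hr1 hr2
    have := huniq ⟨(MulAut.conj (r o)⁻¹).toMonoidHom.comp g, fun v => (r o)⁻¹ * r v⟩
      ⟨by simp, by intro e; rw [hr1 e]; simp [mul_assoc], by intro e; rw [hr2 e]; simp [mul_assoc]⟩
    have h1 := congrArg Prod.fst this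
    have h2 := congrArg Prod.snd this
    dsimp only at h1 h2
    have h3 : p o' = (r o)⁻¹ := by rw [← h2]; simp [hr0]
    refine Prod.ext ?_ ?_
    · ext x
      have := DFunLike.congr_fun h1 x
      simp only [MonoidHom.comp_apply, MulEquiv.coe_toMonoidHom, MulAut.conj_apply] at this
      simp only [MonoidHom.comp_apply, MulEquiv.coe_toMonoidHom, MulAut.conj_apply, h3, ← this]
      group
    · funext v
      have := congrFun h2 v
      simp only [h3, ← this]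
      group

/-- change of gauge -/
theorem Cx.Univ.gauge {I J : Type} {C : Cx I J} {F : Type} [Group F] {ρ₁ : C.A → F} {ρ₂ : C.B → F}
    {o : C.V} (h : C.Univ ρ₁ ρ₂ o) (q : C.V → F) :
    C.Univ (fun e => (q (C.s₁ e))⁻¹ * ρ₁ e * q (C.t₁ e))
      (fun e => (q (C.s₂ e))⁻¹ * ρ₂ e * q (C.t₂ e)) o := by
  intro M _ μ₁ μ₂ hμ
  obtain ⟨⟨f, p⟩, ⟨hp0, hp1, hp2⟩, huniq⟩ := h M μ₁ μ₂ hμ
  dsimp only at hp0 hp1 hp2
  refine ⟨⟨(MulAut.conj (f (q o))).toMonoidHom.comp f, fun v => f (q o) * (f (q v))⁻¹ * p v⟩,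
    ⟨by simp [hp0], ?_, ?_⟩, ?_⟩
  · intro e; rw [hp1 e]; simp [mul_assoc]
  · intro e; rw [hp2 e]; simp [mul_assoc]
  · rintro ⟨g, r⟩ ⟨hr0, hr1, hr2⟩
    dsimp only at hr0 hr1 hr2
    have := huniq ⟨(MulAut.conj (g (q o))⁻¹).toMonoidHom.comp g,
        fun v => (g (q o))⁻¹ * g (q v) * r v⟩
      ⟨by simp [hr0], by intro e; rw [hr1 e]; simp [mul_assoc],
        by intro e; rw [hr2 e]; simp [mul_assoc]⟩
    have h1 := congrArg Prod.fst this
    have h2 := congrArg Prod.snd this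
    dsimp only at h1 h2
    have h3 : f (q o) = g (q o) := by rw [← h1]; simp
    refine Prod.ext ?_ ?_
    · ext x
      have := DFunLike.congr_fun h1 x
      simp only [MonoidHom.comp_apply, MulEquiv.coe_toMonoidHom, MulAut.conj_apply] at this
      simp only [MonoidHom.comp_apply, MulEquiv.coe_toMonoidHom, MulAut.conj_apply, h3, ← this]
      group
    · funext v
      have h4 := congrFun h2 v
      have h5 := DFunLike.congr_fun h1 (q v)
      simp only [MonoidHom.comp_apply, MulEquiv.coe_toMonoidHom, MulAut.conj_apply] at h5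
      simp only [h3, ← h4, ← h5]
      group

/-- transposition of universal labellings -/
theorem Cx.Univ.transp {I J : Type} {C : Cx I J} {F : Type} [Group F] {ρ₁ : C.A → F} {ρ₂ : C.B → F}
    {o : C.V} (h : C.Univ ρ₁ ρ₂ o) : C.T.Univ ρ₂ ρ₁ o := by
  intro M _ μ₁ μ₂ hμ
  obtain ⟨⟨f, p⟩, ⟨hp0, hp1, hp2⟩, huniq⟩ := h M μ₂ μ₁ (fun q => (hμ q).symm)
  exact ⟨⟨f, p⟩, ⟨hp0, hp2, hp1⟩, fun y hy => huniq y ⟨hy.1, hy.2.2, hy.2.1⟩⟩

/-- the transposed model -/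
def Model.T {n : ℕ} {X Y : List (Lt n)} (m : Model n X Y) : Model n Y X where
  F := m.F
  eX := m.eY
  eY := m.eX
  C := m.C.T
  pos v := (m.pos v)⁻¹
  pos_inj := fun a b h => m.pos_inj (inv_injective h)
  pos₁ e := by
    show (m.pos (m.C.t₂ e))⁻¹ = (m.eY (of (m.C.l₂ e)))⁻¹ * (m.pos (m.C.s₂ e))⁻¹
    rw [m.pos₂ e, mul_inv_rev]
  pos₂ e := by
    show (m.pos (m.C.t₁ e))⁻¹ = (m.pos (m.C.s₁ e))⁻¹ * m.eX (of (m.C.l₁ e))
    rw [m.pos₁ e, mul_inv_rev, _root_.inv_inv]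
  inj₁ := m.inj₂
  inj₂ := m.inj₁
  injS q q' h1 h2 := m.injS q q' h2 h1
  w0 := m.w1
  w1 := m.w0
  hp := m.vp
  vp := m.hp
  hp_path := m.vp_path
  vp_path := m.hp_path
  hp_read := m.vp_read
  vp_read := m.hp_read
  univ := by
    have h := ((m.univ.gauge m.pos).base m.w1).transp
    have e1 : (fun e => (m.pos (m.C.s₂ e))⁻¹ * 1 * m.pos (m.C.t₂ e)) =
        fun e => m.eY (of (m.C.l₂ e)) := by
      funext e; rw [m.pos₂ e]; simp
    have e2 : (fun e => (m.pos (m.C.s₁ e))⁻¹ * m.eX (of (m.C.l₁ e)) * m.pos (m.C.t₁ e)) =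
        fun _ => 1 := by
      funext e; rw [m.pos₁ e]; simp
    rw [e1, e2] at h
    exact h

theorem Tame.T {n : ℕ} {X Y : List (Lt n)} {m : Model n X Y} (h : Tame m) : Tame m.T where
  f₁ := h.f₂
  f₂ := h.f₁
  con₁ := h.con₂
  con₂ := h.con₁
  tr₁ := h.tr₂
  tr₂ := h.tr₁

end Pool.Agent.Helper35_WH
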