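import Pool.Agent.Helper35_WH.Cplx

/-!
# Statements of the modules: Block I (free groups, graphs, paths of automorphisms, machine)
-/

namespace Pool.Agent.Helper35_WH

open FreeGroup Pool.Agent.Helper32_HCK

/-- I1. General last fold lemma. -/
def LFGenStatement : Prop :=
  ∀ (n : ℕ) (G : LGraph (Fin n)) (o : G.V), G.Con o → G.Surj o →
    Fintype.card G.E + 1 = Fintype.card G.V + n → 2 ≤ Fintype.card G.V →
    ∃ (z : Lt n) (s : Lt n → Bool) (side : G.V → Bool),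
      (∀ d : G.E × Bool, (G.lab d.1, d.2) ≠ z → side (G.org d) = s (G.lab d.1, d.2)) ∧
      ∀ b : Bool, ∃ d : G.E × Bool, (G.lab d.1, d.2) = z ∧ side (G.org d) = b

/-- I2. Last fold lemma for core graphs and a closed path. -/
def LFCoreStatement : Prop :=
  ∀ (n : ℕ) (G : LGraph (Fin n)) (o : G.V), G.Con o → G.Surj o →
    Fintype.card G.E + 1 = Fintype.card G.V + n → 2 ≤ Fintype.card G.V →
    (∀ u, ∃ d d' : G.E × Bool, d ≠ d' ∧ G.org d = u ∧ G.org d' = u) →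
    ∀ (u : G.V) (L : List (G.E × Bool)), IsPath G.src G.tgt u L u → L ≠ [] →
      IsCyclicallyReduced (readW G.lab L) →
      ∃ z s a k, NontrivSplit z s ∧ SW z s a (readW G.lab L) a k

/-- I3. The Whitehead automorphism of a splitting. -/
def SplitShortStatement : Prop :=
  ∀ (n : ℕ) (z : Lt n) (s : Lt n → Bool), ∃ (τ : FG n ≃* FG n) (c : Bool → FG n),
    Small n 3 τ ∧ (∀ a, (c a).norm ≤ 1) ∧ ∀ a L b k, SW z s a L b k →
      (c a * τ (mk L) * (c b)⁻¹).norm + k ≤ L.length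

/-- I4. Words which are not tight can be shortened. -/
def ReduceStatement : Prop :=
  ∀ (n : ℕ) (L : List (Lt n)), AllLetters L → ¬ Tight L →
    ∃ τ : FG n ≃* FG n, Small n 9 τ ∧ (τ (mk L)).norm < L.length

/-- I5. A short automorphism is reached by a short path of small automorphisms. -/
def FoldPathStatement : Prop :=
  ∀ (n : ℕ) (φ : FG n ≃* FG n) (v : FG n),
    Conn n 9 (v.norm * ∑ i, (φ (of i)).norm) (1 + ∑ i, (φ (of i)).norm) v (φ v)

/-- I6. Reduction to tight words. -/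
def GreedyStatement : Prop :=
  ∀ (n : ℕ) (v : FG n), ∃ (k : ℕ) (hk : k ≤ n) (L : List (Lt k)),
    IsCyclicallyReduced L ∧ AllLetters L ∧ Tight L ∧ L.length ≤ v.norm ∧
    Conn n 9 v.norm (v.norm + n) v (FreeGroup.map (Fin.castLE hk) (mk L))

/-- I7. Tight words with all letters are filling. -/
def TightFillingStatement : Prop :=
  ∀ (n : ℕ) (L : List (Lt n)), IsCyclicallyReduced L → AllLetters L → Tight L → Filling (mk L)

/-- I8. A non-bridge track which is not used by `v` shows that `v` is not filling. -/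
def NonBridgeStatement : Prop :=
  ∀ (V T : Type) [Fintype V] [Fintype T] [DecidableEq V] [DecidableEq T] (H : Type) [Group H]
    (e0 : V → V → Prop) (inc : T → V → V → Prop) (ρ : T → H) (o : V),
    (∀ t, ∃ u w, inc t u w) →
    (∀ t u w u' w', inc t u w → inc t u' w' →
      Relation.EqvGen e0 u u' ∧ Relation.EqvGen e0 w w') →
    (∀ (M : Type) [Group M] (m : T → M), ∃! x : (H →* M) × (V → M), x.2 o = 1 ∧
      (∀ u w, e0 u w → x.2 u = x.2 w) ∧
      ∀ t u w, inc t u w → m t = (x.2 u)⁻¹ * x.1 (ρ t) * x.2 w) →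
    ∀ (t1 : T) (v : H),
    (∀ f : V → Bool, (∀ u w, e0 u w → f u = f w) →
      (∀ t, t ≠ t1 → ∀ u w, inc t u w → f u = f w) → ∀ u w, f u = f w) →
    (∀ (M : Type) [Group M] (m m' : T → M) (x x' : (H →* M) × (V → M)),
      (x.2 o = 1 ∧ (∀ u w, e0 u w → x.2 u = x.2 w) ∧
        ∀ t u w, inc t u w → m t = (x.2 u)⁻¹ * x.1 (ρ t) * x.2 w) →
      (x'.2 o = 1 ∧ (∀ u w, e0 u w → x'.2 u = x'.2 w) ∧
        ∀ t u w, inc t u w → m' t = (x'.2 u)⁻¹ * x'.1 (ρ t) * x'.2 w) →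
      (∀ t, t ≠ t1 → m t = m' t) → x.1 v = x'.1 v) →
    ¬ Filling v

/-- I8b. If labellings determine a homomorphism and a gauge uniquely, then every element is the
label of a closed path. -/
def SurjStatement : Prop :=
  ∀ (V E : Type) (H : Type) [Group H] (s t : E → V) (ρ : E → H) (o : V),
    (∀ (M : Type) [Group M] (x x' : (H →* M) × (V → M)), x.2 o = 1 → x'.2 o = 1 →
      (∀ e, (x.2 (s e))⁻¹ * x.1 (ρ e) * x.2 (t e) = (x'.2 (s e))⁻¹ * x'.1 (ρ e) * x'.2 (t e)) →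
      x = x') →
    (∀ u, ∃ L, IsPath s t o L u) ∧ ∀ h : H, ∃ L : List (E × Bool), IsPath s t o L o ∧
      (L.map fun x => if x.2 then ρ x.1 else (ρ x.1)⁻¹).prod = h

/-- I9. Removing a contractible part beyond a bridge. -/
def RemoveStatement : Prop :=
  ∀ (I J : Type) (C : Cx I J) (F : Type) [Group F] (ρ : C.A → F) (o : C.V),
    C.Univ ρ (fun _ => 1) o → (∀ q, ρ (C.bot q) = ρ (C.top q)) →
    -- the vertical graph is a forest
    (∀ e : C.B, ∃ c : C.V → Bool, (∀ e' : C.B, c (C.s₂ e') ≠ c (C.t₂ e') ↔ e' = e)) →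
    -- a bridge, with far side `c = true`
    ∀ (t : C.A → Prop) (c : C.V → Bool), (∀ q, t (C.bot q) ↔ t (C.top q)) →
    (∀ e e', t e → t e' → ∀ f : C.A → Bool, (∀ q, f (C.bot q) = f (C.top q)) → f e = f e') →
    c o = false → (∀ e : C.B, c (C.s₂ e) = c (C.t₂ e)) → (∀ e : C.A, c (C.s₁ e) ≠ c (C.t₁ e) ↔ t e) →
    -- the tracks on the far side are bridges
    (∀ e₀ : C.A, c (C.s₁ e₀) = true → c (C.t₁ e₀) = true → ∃ d : C.V → Bool,
      (∀ e : C.B, d (C.s₂ e) = d (C.t₂ e)) ∧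
      ∀ e : C.A, d (C.s₁ e) ≠ d (C.t₁ e) ↔
        ∀ f : C.A → Bool, (∀ q, f (C.bot q) = f (C.top q)) → f e = f e₀) →
    ∀ (C' : Cx I J) (iV : C'.V → C.V) (iA : C'.A → C.A) (iB : C'.B → C.B) (iS : C'.S → C.S)
      (o' : C'.V), Function.Injective iV → Function.Injective iA → Function.Injective iB →
      Function.Injective iS → (∀ u, (∃ u', iV u' = u) ↔ c u = false) →
      (∀ e, (∃ e', iA e' = e) ↔ (c (C.s₁ e) = false ∧ c (C.t₁ e) = false)) →
      (∀ e, (∃ e', iB e' = e) ↔ (c (C.s₂ e) = false ∧ c (C.t₂ e) = false)) →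
      (∀ q, (∃ q', iS q' = q) ↔ (c (C.s₁ (C.bot q)) = false ∧ c (C.t₁ (C.bot q)) = false)) →
      (∀ e, iV (C'.s₁ e) = C.s₁ (iA e)) → (∀ e, iV (C'.t₁ e) = C.t₁ (iA e)) →
      (∀ e, iV (C'.s₂ e) = C.s₂ (iB e)) → (∀ e, iV (C'.t₂ e) = C.t₂ (iB e)) →
      (∀ q, iA (C'.bot q) = C.bot (iS q)) → (∀ q, iA (C'.top q) = C.top (iS q)) →
      (∀ q, iB (C'.lef q) = C.lef (iS q)) → (∀ q, iB (C'.rig q) = C.rig (iS q)) →
      iV o' = o → C'.Univ (fun e => ρ (iA e)) (fun _ => 1) o'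

/-- I10. Intersections of free factors. -/
def FreeFactorStatement : Prop :=
  ∀ (α β γ δ : Type) [Fintype α] [Fintype β] [Fintype γ] [Fintype δ]
    (ψ : FreeGroup (α ⊕ β) ≃* FreeGroup (γ ⊕ δ)) (v : FreeGroup α), Filling v →
    ψ (FreeGroup.map Sum.inl v) ∈ (FreeGroup.map (Sum.inl : γ → γ ⊕ δ)).range →
    ∀ g : FreeGroup α, ψ (FreeGroup.map Sum.inl g) ∈ (FreeGroup.map (Sum.inl : γ → γ ⊕ δ)).range

/-- I11. The verifier. -/
def NPStatement : Prop :=
  ∀ (n K : ℕ) (P : Polynomial ℕ), (∀ u v : FG n, (∃ φ : FG n ≃* FG n, φ v = u) →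
    Conn n K (P.eval (u.norm + v.norm)) (P.eval (u.norm + v.norm)) v u) →
    InNP (whiteheadProblem n)

/-- The main theorem on tight words. -/
def CoreStatement : Prop :=
  ∃ C d : ℕ, ∀ (n : ℕ) (X Y : List (Lt n)), IsCyclicallyReduced X → IsCyclicallyReduced Y →
    AllLetters X → AllLetters Y → Tight X → Tight Y → ∀ ψ : FG n ≃* FG n, ψ (mk X) = mk Y →
    ∃ h : FG n ≃* FG n, h (mk X) = mk Y ∧
      ∀ i, (h (of i)).norm ≤ C * (X.length + Y.length + 1) ^ d

/-- I12. The final theorem. -/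
def FinalStatement : Prop := ∀ n, InNP (whiteheadProblem n)

end Pool.Agent.Helper35_WH
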