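import Pool.Agent.Helper35_WH.Surf
import Pool.Agent.Helper35_WH.Stmt1

/-!
# Statements of the modules: Block II (models, spine) and Block S (square tiled surfaces)
-/

namespace Pool.Agent.Helper35_WH

open FreeGroup

/-! ### Forests given by colourings -/

/-- T1. Trivialisation over a forest. -/
def TrivStatement : Prop :=
  ∀ (V E : Type) [Fintype E] [DecidableEq E] (s t : E → V),
    (∀ e₀, ∃ c : V → Bool, ∀ e, c (s e) ≠ c (t e) ↔ e = e₀) →
    ∀ (M : Type) [Group M] (μ : E → M), ∃ p : V → M, ∀ e, μ e = (p (s e))⁻¹ * p (t e)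

/-- T2. A forest has at most as many edges as vertices. -/
def ForestCardStatement : Prop :=
  ∀ (V E : Type) [Fintype V] [Fintype E] [DecidableEq V] [DecidableEq E] (s t : E → V),
    (∀ e₀, ∃ c : V → Bool, ∀ e, c (s e) ≠ c (t e) ↔ e = e₀) → Fintype.card E ≤ Fintype.card V

/-- T3. The vertical graph of a model is a forest. -/
def ModelForestStatement : Prop :=
  ∀ (n : ℕ) (X Y : List (Lt n)) (m : Model n X Y) (e₀ : m.C.B),
    ∃ c : m.C.V → Bool, ∀ e, c (m.C.s₂ e) ≠ c (m.C.t₂ e) ↔ e = e₀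

/-! ### Minimal models -/

/-- M1. Existence of a model. -/
def InitStatement : Prop :=
  ∀ (n : ℕ) (X Y : List (Lt n)) (ψ : FG n ≃* FG n), ψ (mk X) = mk Y → Nonempty (Model n X Y)

/-- two horizontal edges are in the same track -/
def Cx.Track {I J : Type} (C : Cx I J) (e e' : C.A) : Prop :=
  ∀ f : C.A → Bool, (∀ q, f (C.bot q) = f (C.top q)) → f e = f e'

/-- M2. Removing a free face. -/
def FreeFaceStatement : Prop :=
  ∀ (n : ℕ) (X Y : List (Lt n)) (m : Model n X Y) (e : m.C.A), (∀ b, (e, b) ∉ m.hp) →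
    Fintype.card {x : m.C.S × Bool // m.C.hside x = e} = 1 →
    ∃ m' : Model n X Y, m'.size < m.size

/-- M3. Removing an unvisited track. -/
def VisitStatement : Prop :=
  ∀ (n : ℕ) (X Y : List (Lt n)) (m : Model n X Y), Filling (mk X) →
    ∀ e : m.C.A, (∀ e' b, (e', b) ∈ m.hp → ¬ m.C.Track e e') →
    ∃ m' : Model n X Y, m'.size < m.size

/-- the first properties of a minimal model -/
structure Semi {n : ℕ} {X Y : List (Lt n)} (m : Model n X Y) : Prop where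
  f₁ : ∀ e : m.C.A, (∀ b, (e, b) ∉ m.hp) → 2 ≤ Fintype.card {x : m.C.S × Bool // m.C.hside x = e}
  f₂ : ∀ e : m.C.B, (∀ b, (e, b) ∉ m.vp) → 2 ≤ Fintype.card {x : m.C.S × Bool // m.C.vside x = e}
  vis₁ : ∀ e : m.C.A, ∃ e' b, (e', b) ∈ m.hp ∧ m.C.Track e e'
  vis₂ : ∀ e : m.C.B, ∃ e' b, (e', b) ∈ m.vp ∧ m.C.T.Track e e'

/-- M4. Minimal models. -/
def SemiStatement : Prop :=
  ∀ (n : ℕ) (X Y : List (Lt n)), Filling (mk X) → Filling (mk Y) → Nonempty (Model n X Y) →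
    ∃ m : Model n X Y, Semi m

/-- M5. A model of a tight word `X` in which all tracks are visited. -/
def OneVertexStatement : Prop :=
  ∀ (n : ℕ) (X Y : List (Lt n)) (m : Model n X Y), IsCyclicallyReduced X → AllLetters X →
    Tight X → (∀ e : m.C.A, ∃ e' b, (e', b) ∈ m.hp ∧ m.C.Track e e') →
    (∀ f : m.C.V → Bool, (∀ e, f (m.C.s₂ e) = f (m.C.t₂ e)) → ∀ u u', f u = f u') ∧
    ∀ f : m.C.A → Bool, (∀ q, f (m.C.bot q) = f (m.C.top q)) →
      ∀ e e', m.C.l₁ e = m.C.l₁ e' → f e = f e'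

/-- M6. Tame models exist. -/
def TameStatement : Prop :=
  ∀ (n : ℕ) (X Y : List (Lt n)) (ψ : FG n ≃* FG n), ψ (mk X) = mk Y →
    IsCyclicallyReduced X → IsCyclicallyReduced Y → AllLetters X → AllLetters Y →
    Tight X → Tight Y → ∃ m : Model n X Y, Tame m

/-- M7. The links remain connected when a vertical germ is removed. -/
def TwoConnStatement : Prop :=
  ∀ (n : ℕ) (X Y : List (Lt n)) (m : Model n X Y), Tame m → IsCyclicallyReduced X →
    IsCyclicallyReduced Y → X ≠ [] → Y ≠ [] → Tight Y →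
    ∀ (w : m.C.V) (e₀ : m.C.B × Bool) (ζ : m.C.Dir → Bool),
    m.C.org (.inr e₀.1, e₀.2) = w →
    (∀ κ, m.C.vert κ = w → m.C.vgerm κ ≠ (.inr e₀.1, e₀.2) →
      ζ (m.C.hgerm κ) = ζ (m.C.vgerm κ)) →
    (∀ g g', m.Turn g g' → m.C.org g = w → m.C.org g' = w → g ≠ (.inr e₀.1, e₀.2) →
      g' ≠ (.inr e₀.1, e₀.2) → ζ g = ζ g') →
    ∀ g g', m.C.org g = w → m.C.org g' = w → g ≠ (.inr e₀.1, e₀.2) →
      g' ≠ (.inr e₀.1, e₀.2) → ζ g = ζ g'

/-- M8. There are few special edges. -/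
def CountStatement : Prop :=
  ∀ (n : ℕ) (X Y : List (Lt n)) (m : Model n X Y), Tame m →
    Nat.card {e : m.C.A // m.Sp₁ e} ≤ 3 * X.length ∧
    Nat.card {x : m.C.S × Bool // m.Sp₁ (m.C.hside x)} ≤ 8 * X.length

/-! ### The surface of a model -/

/-- Q1. Basic properties of the surface of a model, comparison with the transposed model. -/
def QuadBasicStatement : Prop :=
  ∀ (n : ℕ) (X Y : List (Lt n)) (m : Model n X Y),
    (∀ κ, m.quad.nu κ = κ ↔ m.Sp₁ (m.C.hside (κ.1, κ.2.2))) ∧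
    (∀ κ, m.quad.eta κ = κ ↔ m.Sp₂ (m.C.vside (κ.1, κ.2.1))) ∧
    (∀ κ, m.C.hgerm (m.quad.nu κ) = m.C.hgerm κ) ∧
    (∀ κ, m.C.vgerm (m.quad.eta κ) = m.C.vgerm κ) ∧
    (∀ κ κ', m.C.hgerm κ = m.C.hgerm κ' → ¬ m.Sp₁ (m.C.hside (κ.1, κ.2.2)) →
      κ' = κ ∨ κ' = m.quad.nu κ) ∧
    (∀ κ κ', m.C.vgerm κ = m.C.vgerm κ' → ¬ m.Sp₂ (m.C.vside (κ.1, κ.2.1)) →
      κ' = κ ∨ κ' = m.quad.eta κ) ∧
    (∀ κ, m.C.org (m.C.vgerm κ) = m.C.vert κ) ∧
    (∀ κ, m.C.vert (m.quad.nu κ) = m.C.vert κ) ∧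
    (∀ κ, m.C.vert (m.quad.eta κ) = m.C.vert κ) ∧
    (m.T.quad.Strips → m.quad.T.Strips) ∧
    (m.T.quad.Forest → m.quad.T.Forest) ∧
    (∀ D : m.quad.RimData, ∃ (D' : m.T.quad.RimData) (i : D.R.E ≃ D'.R.E),
      (∀ x, D'.R.σ (i x) = i (D.R.σ x)) ∧ (∀ x, D'.R.φ (i x) = i (D.R.φ x)) ∧
      (∀ x, D'.AV.A (i x) = i (D.AH.A x)) ∧ (∀ x, D'.AH.A (i x) = i (D.AV.A x)) ∧
      ∀ x, (D'.e (i x)).1 = (((D.e x).1.1.1, (D.e x).1.1.2.2, (D.e x).1.1.2.1), !(D.e x).1.2))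

/-- Q2. Vertical strips of the surface of a tame model end at the boundary. -/
def StripsStatement : Prop :=
  ∀ (n : ℕ) (X Y : List (Lt n)) (m : Model n X Y), m.quad.Strips

/-- Q3. An orbit at a vertex of the surface is not bounded twice by the same vertical germ. -/
def P3Statement : Prop :=
  ∀ (n : ℕ) (X Y : List (Lt n)) (m : Model n X Y), Tame m → IsCyclicallyReduced X →
    IsCyclicallyReduced Y → X ≠ [] → Y ≠ [] → Tight Y →
    ∀ κ κ', Orb m.quad.nu m.quad.eta κ κ' → m.quad.eta κ = κ → m.quad.eta κ' = κ' →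
      m.C.vgerm κ = m.C.vgerm κ' → κ = κ'

/-- Q4. A closed orbit at a vertex contains all corners at this vertex. -/
def P4Statement : Prop :=
  ∀ (n : ℕ) (X Y : List (Lt n)) (m : Model n X Y), Tame m → IsCyclicallyReduced X →
    IsCyclicallyReduced Y → X ≠ [] → Y ≠ [] → Tight Y →
    ∀ κ, (∀ κ', Orb m.quad.nu m.quad.eta κ κ' → m.quad.nu κ' ≠ κ' ∧ m.quad.eta κ' ≠ κ') →
      (∀ κ', m.C.vert κ' = m.C.vert κ → Orb m.quad.nu m.quad.eta κ κ') ∧
      (∀ (e : m.C.A) (b : Bool), m.Sp₁ e → m.C.org (.inl e, b) ≠ m.C.vert κ) ∧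
      (∀ (e : m.C.B) (b : Bool), m.Sp₂ e → m.C.org (.inr e, b) ≠ m.C.vert κ)

/-- Q5. The vertical graph of the surface is a forest. -/
def QuadForestStatement : Prop :=
  ∀ (n : ℕ) (X Y : List (Lt n)) (m : Model n X Y),
    (∀ κ κ', Orb m.quad.nu m.quad.eta κ κ' → m.quad.eta κ = κ → m.quad.eta κ' = κ' →
      m.C.vgerm κ = m.C.vgerm κ' → κ = κ') → m.quad.Forest

/-! ### Block S: square tiled surfaces -/

/-- S1. The rim and the chord systems of a surface exist. -/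
def RimDataStatement : Prop := ∀ Q : Quad, Nonempty Q.RimData

/-- S2. Functions on the rim extend over the vertical pieces. -/
def ExtendStatement : Prop :=
  ∀ (Q : Quad) (D : Q.RimData), Q.Strips → Q.Forest → ∀ (α : Type) (u : D.R.E → α),
    (∀ x, u (D.R.σ x) = u x) → (∀ x, u (D.AV.A x) = u x) →
    ∃ U : Q.K → α, (∀ κ, U (Q.nu κ) = U κ) ∧ (∀ κ, U (Q.eta κ) = U κ) ∧
      (∀ κ, U (Q.fc κ) = U κ) ∧ ∀ x, U (D.e x).1.1 = u x

/-- S3. Potentials exist. -/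
def PotExistsStatement : Prop :=
  ∀ Q : Quad, Q.Forest → ∀ (M : Type) [Group M] (vV vH : Q.K → M), Q.Rep vV vH →
    ∃ p : Q.K → M, Q.Pot vV p

/-- S4. Labellings of the surface and solutions on the rim. -/
def RecStatement : Prop :=
  ∀ (Q : Quad) (D : Q.RimData) (M : Type) [Group M],
    (∀ vV vH : Q.K → M, Q.Rep vV vH → D.R.Bd (D.bv vV vH) ∧
      ∀ p, Q.Pot vV p → Sol D.AV (D.bv vV vH) fun x =>
        if (D.e x).1.2 then D.bv vV vH x else (p (D.e x).1.1)⁻¹ * p (D.e (D.AV.A x)).1.1) ∧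
    (Q.Strips → ∀ b a : D.R.E → M, D.R.Bd b → Sol D.AV b a → ∃ vV vH p : Q.K → M,
      Q.Rep vV vH ∧ Q.Pot vV p ∧ (∀ x, D.bv vV vH x = b x) ∧
      ∀ x, (D.e x).1.2 = false → a x = (p (D.e x).1.1)⁻¹ * p (D.e (D.AV.A x)).1.1)

/-- S5. Labellings with the same boundary values and the same vertical chords are related by a
gauge transformation which is trivial on the boundary. -/
def GaugeStatement : Prop :=
  ∀ (Q : Quad) (D : Q.RimData), Q.Strips → Q.Forest → ∀ (M : Type) [Group M]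
    (vV vH p vV' vH' p' : Q.K → M), Q.Rep vV vH → Q.Rep vV' vH' → Q.Pot vV p → Q.Pot vV' p' →
    (∀ x, D.bv vV vH x = D.bv vV' vH' x) →
    (∀ x, (D.e x).1.2 = false → (p (D.e x).1.1)⁻¹ * p (D.e (D.AV.A x)).1.1 =
      (p' (D.e x).1.1)⁻¹ * p' (D.e (D.AV.A x)).1.1) →
    ∃ γ : Q.K → M, (∀ κ, γ (Q.nu κ) = γ κ) ∧ (∀ κ, γ (Q.eta κ) = γ κ) ∧
      (∀ x, γ (D.e x).1.1 = 1) ∧ (∀ κ, vV' κ = (γ κ)⁻¹ * vV κ * γ (Q.fc κ)) ∧
      ∀ κ, vH' κ = (γ κ)⁻¹ * vH κ * γ (Q.fa κ)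

/-- two chord systems have the same components -/
def InvIff {R : Rim} (A₁ A₂ : Chords R) : Prop :=
  ∀ f : R.E → Bool, R.Inv f → ((∀ e, f (A₁.A e) = f e) ↔ ∀ e, f (A₂.A e) = f e)

/-- two chord systems have equally many solutions on each union of components -/
def EqvP {R : Rim} (A₁ A₂ : Chords R) : Prop :=
  ∀ P : R.E → Bool, R.Inv P → (∀ e, P (A₁.A e) = P e) → ∀ (M : Type) [Group M] (b : R.E → M),
    R.Bd b → (∀ e, P e = false → b e = 1) →
    Nonempty ({a : R.E → M // Sol A₁ b a ∧ ∀ e, P e = false → a e = 1} ≃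
      {a : R.E → M // Sol A₂ b a ∧ ∀ e, P e = false → a e = 1})

/-- S6. The chord systems of the vertical and of the horizontal strips. -/
def SurfStatement : Prop :=
  ∀ (Q : Quad) (D : Q.RimData), Q.Strips → Q.Forest → Q.T.Strips → Q.T.Forest →
    InvIff D.AV D.AH ∧ EqvP D.AV D.AH

/-! ### Spines -/

/-- the values on the boundary sides -/
def bval {E A B M : Type} [Group M] (bd : E → (A ⊕ B) × Bool) (μ₁ : A → M) (μ₂ : B → M) (e : E) : M :=
  if (bd e).2 then Sum.elim μ₁ μ₂ (bd e).1 else (Sum.elim μ₁ μ₂ (bd e).1)⁻¹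

/-- Universal labellings of a surface with chords `AV` which is attached to a graph with
horizontal edges `A` and vertical edges `B`. -/
def SpineUniv (R : Rim) (AV : Chords R) {G A B I : Type} (o : G) (s₁ t₁ : A → G) (l₁ : A → I)
    (s₂ t₂ : B → G) (vt : R.E → G) (bd : R.E → (A ⊕ B) × Bool) : Prop :=
  ∀ (M : Type) [Group M] (μ₁ : A → M) (μ₂ : B → M) (a : R.E → M), Sol AV (bval bd μ₁ μ₂) a →
    ∃! x : (FreeGroup I →* M) × (G → M), x.2 o = 1 ∧
      (∀ e, μ₁ e = (x.2 (s₁ e))⁻¹ * x.1 (of (l₁ e)) * x.2 (t₁ e)) ∧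
      (∀ e, μ₂ e = (x.2 (s₂ e))⁻¹ * x.2 (t₂ e)) ∧
      ∀ e, AV.A e ≠ R.φ e → a e = (x.2 (vt e))⁻¹ * x.2 (vt (AV.A e))

/-- Spines of tame models. -/
structure Spine (n : ℕ) (X Y : List (Lt n)) where
  /-- the rim of the surface -/
  R : Rim
  /-- the vertical chords -/
  AV : Chords R
  /-- the horizontal chords -/
  AH : Chords R
  /-- vertices -/
  G : Type
  /-- special horizontal edges -/
  A : Type
  /-- special vertical edges -/
  B : Type
  [fG : Fintype G]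
  [fA : Fintype A]
  [fB : Fintype B]
  /-- start -/
  s₁ : A → G
  /-- end -/
  t₁ : A → G
  /-- label -/
  l₁ : A → Fin n
  /-- start -/
  s₂ : B → G
  /-- end -/
  t₂ : B → G
  /-- label -/
  l₂ : B → Fin n
  /-- the vertex of an element of the rim -/
  vt : R.E → G
  /-- the directed edge starting at an element of the rim -/
  bd : R.E → (A ⊕ B) × Bool
  vt_σ : ∀ e, vt (R.σ e) = vt e
  bd_φ : ∀ e, bd (R.φ e) = inv (bd e)
  vt_inl : ∀ e a b, bd e = (.inl a, b) → vt e = if b then s₁ a else t₁ a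
  vt_inr : ∀ e a b, bd e = (.inr a, b) → vt e = if b then s₂ a else t₂ a
  AV_inr : ∀ e a b, bd e = (.inr a, b) → AV.A e = R.φ e
  AV_inl : ∀ e a b, bd e = (.inl a, b) →
    AV.A e ≠ R.φ e ∧ ∃ a', bd (AV.A e) = (.inl a', b) ∧ l₁ a' = l₁ a
  AH_inl : ∀ e a b, bd e = (.inl a, b) → AH.A e = R.φ e
  AH_inr : ∀ e a b, bd e = (.inr a, b) →
    AH.A e ≠ R.φ e ∧ ∃ a', bd (AH.A e) = (.inr a', b) ∧ l₂ a' = l₂ a
  /-- start of the path -/
  o : G
  /-- middle of the path -/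
  o' : G
  /-- horizontal part of the path -/
  hp : List (A × Bool)
  /-- vertical part of the path -/
  vp : List (B × Bool)
  hp_path : IsPath s₁ t₁ o hp o'
  vp_path : IsPath s₂ t₂ o' vp o
  hp_read : readW l₁ hp = X
  vp_read : readW l₂ vp = Y
  univV : SpineUniv R AV o s₁ t₁ l₁ s₂ t₂ vt bd
  univH : SpineUniv R AH o s₂ t₂ l₂ s₁ t₁ vt (fun e => ((bd e).1.swap, (bd e).2))
  connV : ∀ f : G → Bool, (∀ e, f (s₂ e) = f (t₂ e)) → (∀ x, f (vt (AV.A x)) = f (vt x)) →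
    ∀ g g', f g = f g'
  invIff : InvIff AV AH
  eqvP : EqvP AV AH
  card_E : Fintype.card R.E ≤ 16 * (X.length + Y.length)
  card_G : Fintype.card G ≤ 6 * (X.length + Y.length)

attribute [instance] Spine.fG Spine.fA Spine.fB

/-- the vertices on special edges -/
def Model.GV {n : ℕ} {X Y : List (Lt n)} (m : Model n X Y) : Type :=
  {v : m.C.V // (∃ (e : m.C.A) (b : Bool), m.Sp₁ e ∧ m.C.org (.inl e, b) = v) ∨
    ∃ (e : m.C.B) (b : Bool), m.Sp₂ e ∧ m.C.org (.inr e, b) = v}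

/-- U1. The universal property of the surface and its vertical chords. -/
def SurfUnivStatement : Prop :=
  ∀ (n : ℕ) (X Y : List (Lt n)) (m : Model n X Y), Tame m → IsCyclicallyReduced X →
    IsCyclicallyReduced Y → X ≠ [] → Y ≠ [] → Tight X → Tight Y →
    ∀ D : m.quad.RimData, ∀ (vt : D.R.E → m.GV)
      (bd : D.R.E → ({e : m.C.A // m.Sp₁ e} ⊕ {e : m.C.B // m.Sp₂ e}) × Bool),
      (∀ x, (vt x).1 = m.C.vert (D.e x).1.1) →
      (∀ x, (D.e x).1.2 = false → (Sum.map Subtype.val Subtype.val (bd x).1, (bd x).2) =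
        m.C.hgerm (D.e x).1.1) →
      (∀ x, (D.e x).1.2 = true → (Sum.map Subtype.val Subtype.val (bd x).1, (bd x).2) =
        m.C.vgerm (D.e x).1.1) →
      ∀ (s₁ t₁ : {e : m.C.A // m.Sp₁ e} → m.GV) (s₂ t₂ : {e : m.C.B // m.Sp₂ e} → m.GV),
        (∀ e, (s₁ e).1 = m.C.s₁ e.1) → (∀ e, (t₁ e).1 = m.C.t₁ e.1) →
        (∀ e, (s₂ e).1 = m.C.s₂ e.1) → (∀ e, (t₂ e).1 = m.C.t₂ e.1) →
        (∀ o : m.GV, SpineUniv D.R D.AV o s₁ t₁ (fun e => m.C.l₁ e.1) s₂ t₂ vt bd) ∧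
        ∀ f : m.GV → Bool, (∀ e, f (s₂ e) = f (t₂ e)) → (∀ x, f (vt (D.AV.A x)) = f (vt x)) →
          ∀ g g', f g = f g'

/-- U2. Spines exist. -/
def SpineStatement : Prop :=
  ∀ (n : ℕ) (X Y : List (Lt n)) (ψ : FG n ≃* FG n), ψ (mk X) = mk Y → X ≠ [] →
    IsCyclicallyReduced X → IsCyclicallyReduced Y → AllLetters X → AllLetters Y →
    Tight X → Tight Y → Nonempty (Spine n X Y)

/-! ### Chord systems and the assembly -/

/-- C0. Comparison of two chord systems on the same surface. -/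
def ChordMainStatement : Prop :=
  ∃ C d : ℕ, ∀ (R : Rim) (A₁ A₂ : Chords R), InvIff A₁ A₂ → EqvP A₁ A₂ →
    ∃ w w' : R.E → FreeGroup (R.E ⊕ R.E),
      (∀ e, (w e).norm ≤ C * (Fintype.card R.E + 1) ^ d) ∧
      (∀ e, (w' e).norm ≤ C * (Fintype.card R.E + 1) ^ d) ∧
      ∀ (M : Type) [Group M] (b : R.E → M), R.Bd b →
        (∀ a, Sol A₂ b a → Sol A₁ b (fun e => FreeGroup.lift (Sum.elim a b) (w e)) ∧
          ∀ e, FreeGroup.lift
            (Sum.elim (fun e' => FreeGroup.lift (Sum.elim a b) (w e')) b) (w' e) = a e) ∧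
        ∀ a, Sol A₁ b a → Sol A₂ b (fun e => FreeGroup.lift (Sum.elim a b) (w' e)) ∧
          ∀ e, FreeGroup.lift
            (Sum.elim (fun e' => FreeGroup.lift (Sum.elim a b) (w' e')) b) (w e) = a e

/-- A1. The theorem on tight words. -/
def CoreFromStatement : Prop :=
  SpineStatement → ChordMainStatement → FreeFactorStatement → TightFillingStatement →
    CoreStatement

/-- A2. The final assembly. -/
def FinalFromStatement : Prop :=
  GreedyStatement → FreeFactorStatement → TightFillingStatement → CoreStatement →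
    FoldPathStatement → NPStatement → FinalStatement

end Pool.Agent.Helper35_WH
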