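import Pool.Agent.Helper35_WH.Stmt2

/-!
# Statements of the modules: Block III (chord systems, quadratic words)
-/

namespace Pool.Agent.Helper35_WH

open FreeGroup

/-! ### Quadratic words -/

/-- letters: arcs `inl`, sides `inr`, with a direction -/
abbrev Ltr (L B : Type) := (L ⊕ B) × Bool

/-- number of occurrences of a letter, in both directions -/
def cnt {L B : Type} [DecidableEq L] [DecidableEq B] (W : List (Ltr L B)) (x : L ⊕ B) : ℕ :=
  W.countP fun y => decide (y.1 = x)

/-- Compatible colouring of the ends of the letters: `g x` is the colour of the start of the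
directed letter `x`. -/
def Compat {L B α : Type} (g : Ltr L B → α) (W : List (Ltr L B)) : Prop :=
  W.IsChain fun x y => g (inv x) = g y

/-- The vertex condition: glueing the polygon with boundary word `W` gives exactly one vertex on
each boundary circle. `col` is the circle of the start of a directed letter, `none` is the circle
of the root. -/
structure VC {L B : Type} [DecidableEq L] [DecidableEq B] (W : List (Ltr L B))
    (col : Ltr L B → Option B) : Prop where
  side : ∀ j b, col (.inr j, b) = some j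
  chain : Compat col W
  head : ∀ x ∈ W.head?, col x = none
  last : ∀ x ∈ W.getLast?, col (inv x) = none
  used : ∀ x j, cnt W x.1 ≠ 0 → col x = some j → cnt W (.inr j) ≠ 0
  univ : ∀ g : Ltr L B → Bool, Compat g W → ∀ x y, cnt W x.1 ≠ 0 → cnt W y.1 ≠ 0 →
    col x = col y → g x = g y

/-- `W` and `W'` are related by an isomorphism of free groups which fixes the sides and is bounded
by `N` together with its inverse. -/
def Eqw {L L' B : Type} [DecidableEq L] [DecidableEq L'] [DecidableEq B] (N : ℕ)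
    (W : List (Ltr L B)) (W' : List (Ltr L' B)) : Prop :=
  ∃ f : FreeGroup (L ⊕ B) ≃* FreeGroup (L' ⊕ B), (∀ j, f (of (.inr j)) = of (.inr j)) ∧
    f (mk W) = mk W' ∧ (∀ k, (f (of (.inl k))).norm ≤ N) ∧ ∀ k, (f.symm (of (.inl k))).norm ≤ N

/-- handles, crosscaps, sides -/
inductive Piece (L B : Type)
  | com (a b : L)
  | sq (c : L)
  | bd (t : L) (j : B) (s : Bool)

/-- the word of a piece -/
def Piece.word {L B : Type} : Piece L B → List (Ltr L B)
  | .com a b => [(.inl a, true), (.inl b, true), (.inl a, false), (.inl b, false)]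
  | .sq c => [(.inl c, true), (.inl c, true)]
  | .bd t j s => [(.inl t, true), (.inr j, s), (.inl t, false)]

/-- the word of a list of pieces -/
def wordOf {L B : Type} (ps : List (Piece L B)) : List (Ltr L B) := ps.flatMap Piece.word

/-- E1. Extraction of pieces. -/
def ExtractStatement : Prop :=
  ∀ (L B : Type) [Fintype L] [Fintype B] [DecidableEq L] [DecidableEq B] (W : List (Ltr L B))
    (col : Ltr L B → Option B), (∀ k, cnt W (.inl k) = 0 ∨ cnt W (.inl k) = 2) →
    (∀ j, cnt W (.inr j) ≤ 1) → VC W col →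
    ∃ ps : List (Piece L B), (∀ x, cnt (wordOf ps) x = cnt W x) ∧
      Eqw (8 * W.length + 1) W (wordOf ps)

/-- E2. Reordering of pieces. -/
def PermStatement : Prop :=
  ∀ (L B : Type) [Fintype L] [Fintype B] [DecidableEq L] [DecidableEq B]
    (ps ps' : List (Piece L B)), (∀ k, cnt (wordOf ps) (.inl k) ≤ 2) →
    (∀ j, cnt (wordOf ps) (.inr j) ≤ 1) → ps.Perm ps' →
    Eqw (8 * (wordOf ps).length + 1) (wordOf ps) (wordOf ps')

/-- E3. Handles become crosscaps. -/
def CrossStatement : Prop :=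
  ∀ (L B : Type) [DecidableEq L] [DecidableEq B] (c : L) (hs : List (L × L)),
    (c :: hs.flatMap fun h => [h.1, h.2]).Nodup →
    ∃ f : FreeGroup (L ⊕ B) ≃* FreeGroup (L ⊕ B),
      (∀ x : L ⊕ B, (∀ y ∈ c :: hs.flatMap (fun h => [h.1, h.2]), x ≠ .inl y) →
        f (of x) = of x) ∧
      f (mk (wordOf (.sq c :: hs.map fun h => .com h.1 h.2))) =
        mk (wordOf ((hs.flatMap fun h => [.sq h.1, .sq h.2]) ++ [.sq c])) ∧
      (∀ x, (f (of x)).norm ≤ 10 * (hs.length + 1)) ∧
      ∀ x, (f.symm (of x)).norm ≤ 10 * (hs.length + 1)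

/-- E4. Change of the directions of sides in the presence of a crosscap. -/
def FlipStatement : Prop :=
  ∀ (L B : Type) [DecidableEq L] [DecidableEq B] (c : L) (ds : List (L × B × Bool))
    (tgt : B → Bool), (c :: ds.map fun d => d.1).Nodup →
    ∃ f : FreeGroup (L ⊕ B) ≃* FreeGroup (L ⊕ B),
      (∀ x : L ⊕ B, (∀ y ∈ c :: ds.map (fun d => d.1), x ≠ .inl y) → f (of x) = of x) ∧
      f (mk (wordOf (.sq c :: ds.map fun d => .bd d.1 d.2.1 d.2.2))) =
        mk (wordOf ((ds.map fun d => .bd d.1 d.2.1 (tgt d.2.1)) ++ [.sq c])) ∧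
      (∀ x, (f (of x)).norm ≤ 10 * (ds.length + 1)) ∧
      ∀ x, (f.symm (of x)).norm ≤ 10 * (ds.length + 1)

/-- the sides of a canonical word -/
def sideWord {L : Type} {β : ℕ} (T : Fin β → L) (sgn : Fin β → Bool) : List (Ltr L (Fin β)) :=
  (List.finRange β).flatMap fun j => (Piece.bd (T j) j (sgn j)).word

/-- canonical word of an orientable surface -/
def orWord (β h : ℕ) (sgn : Fin β → Bool) : List (Ltr (Fin β ⊕ (Fin h ⊕ Fin h)) (Fin β)) :=
  sideWord .inl sgn ++
    (List.finRange h).flatMap fun i => (Piece.com (.inr (.inl i)) (.inr (.inr i))).word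

/-- canonical word of a nonorientable surface -/
def noWord (β k : ℕ) : List (Ltr (Fin β ⊕ Fin k) (Fin β)) :=
  sideWord .inl (fun _ => true) ++
    (List.finRange k).flatMap fun i => (Piece.sq (.inr i)).word

/-- E5. Normal forms of quadratic words. -/
def NormStatement : Prop :=
  ∃ C d : ℕ, ∀ (ℓ β : ℕ) (W : List (Ltr (Fin ℓ) (Fin β))) (col : Ltr (Fin ℓ) (Fin β) → Option (Fin β)),
    (∀ k, cnt W (.inl k) = 2) → (∀ j, cnt W (.inr j) = 1) → VC W col →
    (∃ (h : ℕ) (sgn : Fin β → Bool), Eqw (C * (W.length + 1) ^ d) W (orWord β h sgn)) ∨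
    ∃ k : ℕ, 1 ≤ k ∧ Eqw (C * (W.length + 1) ^ d) W (noWord β k)

/-- the solutions of a quadratic equation -/
def QSol {L : Type} {β : ℕ} (W : List (Ltr L (Fin β))) {M : Type} [Group M]
    (c : Option (Fin β) → M) : Type :=
  {x : L → M // FreeGroup.lift (Sum.elim x fun j => c (some j)) (mk W) = (c none)⁻¹}

/-- E6. The solutions determine the canonical word. -/
def TypeStatement : Prop :=
  (∀ (β h h' : ℕ) (sgn sgn' : Fin β → Bool),
    (∀ (M : Type) [Group M] (c : Option (Fin β) → M),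
      Nonempty (QSol (orWord β h sgn) c ≃ QSol (orWord β h' sgn') c)) → h = h' ∧ sgn = sgn') ∧
  (∀ β k k' : ℕ, (∀ (M : Type) [Group M] (c : Option (Fin β) → M),
      Nonempty (QSol (noWord β k) c ≃ QSol (noWord β k') c)) → k = k') ∧
  ∀ (β h k : ℕ) (sgn : Fin β → Bool), 1 ≤ k → ¬ ∀ (M : Type) [Group M] (c : Option (Fin β) → M),
      Nonempty (QSol (orWord β h sgn) c ≃ QSol (noWord β k) c)

/-! ### Chord systems -/

/-- connected surface -/
def Chords.Con {R : Rim} (A : Chords R) : Prop :=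
  ∀ f : R.E → Bool, R.Inv f → (∀ e, f (A.A e) = f e) → ∀ e e', f e = f e'

/-- a single disc -/
def Chords.Trans {R : Rim} (A : Chords R) : Prop :=
  ∀ f : R.E → Bool, (∀ e, f (R.σ e) = f e) → (∀ e, f (A.A e) = f e) → ∀ e e', f e = f e'

/-- Marks on the boundary circles: `circ e` is the circle of `e`, the circle runs from
`mark j` by `φ, σ, φ, …` to `σ (mark j)`; `u e` is the product of the boundary values from
`mark j` to `e`. -/
structure Marks (R : Rim) where
  /-- number of circles without the root circle -/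
  β : ℕ
  /-- the circle -/
  circ : R.E → Option (Fin β)
  /-- the marks -/
  mark : Option (Fin β) → R.E
  /-- the potentials -/
  u : R.E → FreeGroup R.E
  circ_inv : R.Inv circ
  circ_mark : ∀ j, circ (mark j) = j
  path : ∀ f : R.E → Bool, (∀ e, f (R.φ e) = f e) →
    (∀ e, (∀ j, e ≠ mark j ∧ e ≠ R.σ (mark j)) → f (R.σ e) = f e) →
    ∀ e e', circ e = circ e' → f e = f e'
  norm_u : ∀ e, (u e).norm ≤ Fintype.card R.E
  u_φ : ∀ (M : Type) [Group M] (b : R.E → M), R.Bd b → ∀ e,
    FreeGroup.lift b (u (R.φ e)) = FreeGroup.lift b (u e) * b e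
  u_σ : ∀ e, (∀ j, e ≠ mark j ∧ e ≠ R.σ (mark j)) → u (R.σ e) = u e
  u_mark : ∀ j, u (mark j) = 1
  real : ∀ (M : Type) [Group M] (c : Option (Fin β) → M), ∃ b : R.E → M, R.Bd b ∧
    ∀ j, FreeGroup.lift b (u (R.σ (mark j))) = c j

/-- G1. Marks exist. -/
def MarksStatement : Prop := ∀ (R : Rim) (e₀ : R.E), ∃ m : Marks R, m.mark none = e₀

/-- G2. Reduction to a single disc. -/
def SinglePolyStatement : Prop :=
  ∀ (R : Rim) (A : Chords R), A.Con → ∃ A' : Chords R,
    (∀ e, A'.A e = A.A e ∨ A'.A e = R.φ e) ∧ A'.Trans ∧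
    ∀ (M : Type) [Group M] (b a : R.E → M), R.Bd b → (Sol A b a ↔ ∃ r : R.E → M,
      (∀ e, r (R.σ e) = r e) ∧ (∀ e, A'.A e = R.φ e → r (R.φ e) = r e * b e) ∧
      (∀ e, a e = (r e)⁻¹ * r (A.A e)) ∧
      ∀ e, A'.A e ≠ R.φ e → r e * b e * (r (R.φ e))⁻¹ =
        r (A.A e) * b (A.A e) * (r (R.φ (A.A e)))⁻¹)

/-- the relations between the values at the corners of the polygon -/
structure PolyVal {R : Rim} (m : Marks R) (A : Chords R) {M : Type} [Group M]
    (c : Option (Fin m.β) → M) (s : R.E → M) : Prop where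
  root : s (m.mark none) = 1
  nb : ∀ e, A.A e = R.φ e → s (R.φ e) = s e
  vert : ∀ e, (∀ j, e ≠ m.mark j ∧ e ≠ R.σ (m.mark j)) → s (R.σ e) = s e
  mk' : ∀ j, s (m.mark j) = s (R.σ (m.mark j)) * c j
  band : ∀ e, A.A e ≠ R.φ e → (s e)⁻¹ * s (A.A e) = (s (R.φ e))⁻¹ * s (R.φ (A.A e))

/-- The boundary word of the polygon. -/
structure PolyWord {R : Rim} (m : Marks R) (A : Chords R) where
  /-- number of bands -/
  ℓ : ℕ
  /-- the word -/
  W : List (Ltr (Fin ℓ) (Fin m.β))
  /-- position of the elements of the rim -/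
  pre : R.E → ℕ
  /-- an end of a band -/
  bnd : Fin ℓ → R.E
  /-- circles at the ends of the letters -/
  col : Ltr (Fin ℓ) (Fin m.β) → Option (Fin m.β)
  two : ∀ k, cnt W (.inl k) = 2
  one : ∀ j, cnt W (.inr j) = 1
  len : W.length ≤ Fintype.card R.E
  vc : VC W col
  bnd_ne : ∀ k, A.A (bnd k) ≠ R.φ (bnd k)
  fwd : ∀ (M : Type) [Group M] (c : Option (Fin m.β) → M) (s : R.E → M), PolyVal m A c s →
    FreeGroup.lift (Sum.elim (fun k => (s (bnd k))⁻¹ * s (A.A (bnd k))) fun j => c (some j))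
      (mk W) = (c none)⁻¹ ∧
    ∀ e, s e = FreeGroup.lift (Sum.elim (fun k => (s (bnd k))⁻¹ * s (A.A (bnd k)))
      fun j => c (some j)) (mk (W.take (pre e)))
  bwd : ∀ (M : Type) [Group M] (c : Option (Fin m.β) → M) (x : Fin ℓ → M),
    FreeGroup.lift (Sum.elim x fun j => c (some j)) (mk W) = (c none)⁻¹ →
    PolyVal m A c (fun e => FreeGroup.lift (Sum.elim x fun j => c (some j)) (mk (W.take (pre e)))) ∧
    ∀ k, x k = (FreeGroup.lift (Sum.elim x fun j => c (some j)) (mk (W.take (pre (bnd k)))))⁻¹ *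
      FreeGroup.lift (Sum.elim x fun j => c (some j)) (mk (W.take (pre (A.A (bnd k)))))

/-- G3. The word of a polygon. -/
def PolyWordStatement : Prop :=
  ∀ (R : Rim) (m : Marks R) (A : Chords R), A.Trans → Nonempty (PolyWord m A)

/-- G4. The solutions for a connected chord system, in coordinates. -/
def CoordStatement : Prop :=
  ∃ C d : ℕ, ∀ (R : Rim) (m : Marks R) (A : Chords R), A.Con →
    ∃ (ℓ : ℕ) (W : List (Ltr (Fin ℓ) (Fin m.β))) (col : Ltr (Fin ℓ) (Fin m.β) → Option (Fin m.β))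
      (X : Fin ℓ → FreeGroup (R.E ⊕ R.E)) (Z : R.E → FreeGroup (Fin ℓ ⊕ R.E)),
      (∀ k, cnt W (.inl k) = 2) ∧ (∀ j, cnt W (.inr j) = 1) ∧ VC W col ∧
      W.length ≤ Fintype.card R.E ∧ (∀ k, (X k).norm ≤ C * (Fintype.card R.E + 1) ^ d) ∧
      (∀ e, (Z e).norm ≤ C * (Fintype.card R.E + 1) ^ d) ∧
      ∀ (M : Type) [Group M] (b : R.E → M), R.Bd b →
        (∀ a, Sol A b a →
          FreeGroup.lift (Sum.elim (fun k => FreeGroup.lift (Sum.elim a b) (X k))
            fun j => FreeGroup.lift b (m.u (R.σ (m.mark (some j))))) (mk W) =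
              (FreeGroup.lift b (m.u (R.σ (m.mark none))))⁻¹ ∧
          ∀ e, FreeGroup.lift (Sum.elim (fun k => FreeGroup.lift (Sum.elim a b) (X k)) b) (Z e) =
            a e) ∧
        ∀ x : Fin ℓ → M,
          FreeGroup.lift (Sum.elim x fun j => FreeGroup.lift b (m.u (R.σ (m.mark (some j)))))
            (mk W) = (FreeGroup.lift b (m.u (R.σ (m.mark none))))⁻¹ →
          Sol A b (fun e => FreeGroup.lift (Sum.elim x b) (Z e)) ∧
          ∀ k, FreeGroup.lift (Sum.elim (fun e => FreeGroup.lift (Sum.elim x b) (Z e)) b) (X k) =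
            x k

/-- G5. Comparison of two connected chord systems. -/
def ChordConStatement : Prop :=
  ∃ C d : ℕ, ∀ (R : Rim) (A₁ A₂ : Chords R), Nonempty R.E → A₁.Con → A₂.Con →
    (∀ (M : Type) [Group M] (b : R.E → M), R.Bd b →
      Nonempty ({a : R.E → M // Sol A₁ b a} ≃ {a : R.E → M // Sol A₂ b a})) →
    ∃ w w' : R.E → FreeGroup (R.E ⊕ R.E),
      (∀ e, (w e).norm ≤ C * (Fintype.card R.E + 1) ^ d) ∧
      (∀ e, (w' e).norm ≤ C * (Fintype.card R.E + 1) ^ d) ∧
      ∀ (M : Type) [Group M] (b : R.E → M), R.Bd b →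
        (∀ a, Sol A₂ b a → Sol A₁ b (fun e => FreeGroup.lift (Sum.elim a b) (w e)) ∧
          ∀ e, FreeGroup.lift
            (Sum.elim (fun e' => FreeGroup.lift (Sum.elim a b) (w e')) b) (w' e) = a e) ∧
        ∀ a, Sol A₁ b a → Sol A₂ b (fun e => FreeGroup.lift (Sum.elim a b) (w' e)) ∧
          ∀ e, FreeGroup.lift
            (Sum.elim (fun e' => FreeGroup.lift (Sum.elim a b) (w' e')) b) (w e) = a e

end Pool.Agent.Helper35_WH
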