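import Pool.Agent.Helper35_WH.ModelT
import Pool.Agent.Helper35_WH.Chord

/-!
# The square tiled surface of a model
-/

namespace Pool.Agent.Helper35_WH

open FreeGroup

/-- special horizontal edges: on the path, or not in exactly two squares -/
def Model.Sp₁ {n : ℕ} {X Y : List (Lt n)} (m : Model n X Y) (e : m.C.A) : Prop :=
  (∃ b, (e, b) ∈ m.hp) ∨ Fintype.card {x : m.C.S × Bool // m.C.hside x = e} ≠ 2

/-- special vertical edges: on the path, or not in exactly two squares -/
def Model.Sp₂ {n : ℕ} {X Y : List (Lt n)} (m : Model n X Y) (e : m.C.B) : Prop :=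
  (∃ b, (e, b) ∈ m.vp) ∨ Fintype.card {x : m.C.S × Bool // m.C.vside x = e} ≠ 2

open Classical in
/-- For a function `f` and a property `P` of its values: `mate f P x` is the other element with the
same value, if there are exactly two elements with this value and not `P (f x)`; otherwise it is
`x`. -/
noncomputable def mate {S E : Type} (f : S → E) (P : E → Prop) (x : S) : S :=
  if h : ¬ P (f x) ∧ ∃ y, y ≠ x ∧ ∀ z, f z = f x ↔ z = x ∨ z = y then h.2.choose else x

theorem mate_spec {S E : Type} (f : S → E) (P : E → Prop) (x : S)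
    (h : ¬ P (f x) ∧ ∃ y, y ≠ x ∧ ∀ z, f z = f x ↔ z = x ∨ z = y) :
    mate f P x ≠ x ∧ ∀ z, f z = f x ↔ z = x ∨ z = mate f P x := by
  unfold mate
  rw [dif_pos h]
  exact h.2.choose_spec

theorem mate_of_not {S E : Type} (f : S → E) (P : E → Prop) (x : S)
    (h : ¬ (¬ P (f x) ∧ ∃ y, y ≠ x ∧ ∀ z, f z = f x ↔ z = x ∨ z = y)) : mate f P x = x := by
  unfold mate
  rw [dif_neg h]

theorem f_mate {S E : Type} (f : S → E) (P : E → Prop) (x : S) : f (mate f P x) = f x := by
  by_cases h : ¬ P (f x) ∧ ∃ y, y ≠ x ∧ ∀ z, f z = f x ↔ z = x ∨ z = y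
  · exact ((mate_spec f P x h).2 _).2 (Or.inr rfl)
  · rw [mate_of_not f P x h]

theorem mate_mate {S E : Type} (f : S → E) (P : E → Prop) (x : S) :
    mate f P (mate f P x) = x := by
  by_cases h : ¬ P (f x) ∧ ∃ y, y ≠ x ∧ ∀ z, f z = f x ↔ z = x ∨ z = y
  · obtain ⟨h1, h2⟩ := mate_spec f P x h
    have h3 := f_mate f P x
    have h' : ¬ P (f (mate f P x)) ∧ ∃ y, y ≠ mate f P x ∧
        ∀ z, f z = f (mate f P x) ↔ z = mate f P x ∨ z = y := by
      refine ⟨by rw [h3]; exact h.1, x, h1.symm, fun z => ?_⟩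
      rw [h3, h2 z, or_comm]
    obtain ⟨h4, h5⟩ := mate_spec f P _ h'
    have h6 := (h5 x).1 h3.symm
    rcases h6 with h6 | h6
    · exact absurd h6.symm h1
    · exact h6.symm
  · rw [mate_of_not f P x h, mate_of_not f P x h]

open Classical in
/-- The square tiled surface of a model: squares are glued along the edges which are not special. -/
noncomputable def Model.quad {n : ℕ} {X Y : List (Lt n)} (m : Model n X Y) : Quad where
  K := m.C.Cor
  nu κ := ((mate m.C.hside m.Sp₁ (κ.1, κ.2.2)).1, κ.2.1, (mate m.C.hside m.Sp₁ (κ.1, κ.2.2)).2)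
  eta κ := ((mate m.C.vside m.Sp₂ (κ.1, κ.2.1)).1, (mate m.C.vside m.Sp₂ (κ.1, κ.2.1)).2, κ.2.2)
  fa κ := (κ.1, !κ.2.1, κ.2.2)
  fc κ := (κ.1, κ.2.1, !κ.2.2)
  nunu κ := by simp [mate_mate]
  etaeta κ := by simp [mate_mate]
  fafa κ := by simp
  fcfc κ := by simp
  fafc κ := rfl
  nufa κ := rfl
  etafc κ := rfl
  colA κ := κ.2.1
  colC κ := κ.2.2
  colA_nu κ := rfl
  colA_fc κ := rfl
  colA_fa κ := rfl
  colC_eta κ := rfl
  colC_fa κ := rfl
  colC_fc κ := rfl

end Pool.Agent.Helper35_WH
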